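import Pool.Agent.H912.DY.P5
import Pool.Agent.H912.AE.Kh
import Pool.Graph.R_pool_sql_team_seeded_1acbe0a2.Y729.AV.Moments
import Pool.Graph.R_pool_sql_team_seeded_1acbe0a2.Y729.AV.BC

/-!
# Torsion of projective commutative groups over the infinite fields `K[f]` (helper912)
-/

set_option autoImplicit false
set_option linter.unusedSectionVars false

open MvPolynomial IsLocalRing IsDedekindDomain Pool.Agent.Y729.AV Pool.Agent.Y729.AV.Family
open scoped NumberField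

namespace Pool.Agent.H912.TX

/-- a place of a Galois extension of exponent `f` above a given prime; its residue field is
bounded -/
theorem place_galois {K N : Type} [Field K] [NumberField K] [Field N] [NumberField N]
    [Algebra K N] [IsGalois K N] {f : ℕ} (hf1 : 1 ≤ f) (hf : ∀ σ : N ≃ₐ[K] N, σ ^ f = 1)
    (𝔭 : Ideal (𝓞 K)) [h𝔭 : 𝔭.IsMaximal] {p : ℕ} (hp : p.Prime) (hp𝔭 : (p : 𝓞 K) ∈ 𝔭) :
    ∃ A : ValuationSubring N, ∃ h : ∀ x : 𝓞 K, algebraMap K N (algebraMap (𝓞 K) K x) ∈ A,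
      (∀ x ∉ 𝔭, residue A ⟨_, h x⟩ ≠ 0) ∧ Finite (ResidueField A) ∧
      Nat.card (ResidueField A) ≤ (p ^ Module.finrank ℚ K) ^ f ∧ (p : ResidueField A) = 0 := by
  have hbot : 𝔭 ≠ ⊥ := by
    rintro rfl
    rw [Ideal.mem_bot] at hp𝔭
    exact hp.ne_zero (by exact_mod_cast hp𝔭)
  let v : HeightOneSpectrum (𝓞 K) := ⟨𝔭, h𝔭.isPrime, hbot⟩
  have hvp : v.asIdeal = 𝔭 := rfl
  have hpv : v.valuation K (p : K) < 1 := by
    have h1 := (HeightOneSpectrum.valuation_lt_one_iff_mem v (K := K) (p : 𝓞 K)).2 hp𝔭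
    simpa using h1
  have hvmax : v.asIdeal.IsMaximal := v.isMaximal
  obtain ⟨Q, hQp, hQl⟩ := (inferInstance : Nonempty (v.asIdeal.primesOver (𝓞 N)))
  let w : HeightOneSpectrum (𝓞 N) := ⟨Q, hQp, Ideal.ne_bot_of_liesOver_of_ne_bot v.ne_bot Q⟩
  have hw : w.asIdeal.LiesOver v.asIdeal := hQl
  have he0 : v.asIdeal.ramificationIdx' w.asIdeal ≠ 0 :=
    Ideal.IsDedekindDomain.ramificationIdx'_ne_zero_of_liesOver w.asIdeal v.ne_bot
  set A := (w.valuation N).valuationSubring with hA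
  have hle : ∀ y : K, v.valuation K y ≤ 1 → algebraMap K N y ∈ A := by
    intro y hy
    show w.valuation N (algebraMap K N y) ≤ 1
    rw [← HeightOneSpectrum.valuation_liesOver N v w y]
    exact pow_le_one' hy _
  have hwmax : w.asIdeal.IsMaximal := w.isMaximal
  have hfin : Finite (𝓞 N ⧸ w.asIdeal) := Ideal.finiteQuotientOfFreeOfNeBot _ w.ne_bot
  have hnorm : Nat.card (𝓞 K ⧸ w.asIdeal.under (𝓞 K)) = Ideal.absNorm v.asIdeal := by
    rw [← hw.over, Ideal.absNorm_apply, Submodule.cardQuot_apply]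
  have hN1 : 1 < Ideal.absNorm v.asIdeal := by
    have h1 : Ideal.absNorm v.asIdeal ≠ 0 := Ideal.absNorm_ne_zero_iff_mem_nonZeroDivisors.2
      (mem_nonZeroDivisors_iff_ne_zero.2 v.ne_bot)
    have h2 : Ideal.absNorm v.asIdeal ≠ 1 := by
      rw [Ne, Ideal.absNorm_eq_one_iff]
      exact hvmax.ne_top
    omega
  have hNp : Ideal.absNorm v.asIdeal ≤ p ^ Module.finrank ℚ K := by
    have h2 : Ideal.absNorm v.asIdeal ∣ Ideal.absNorm (Ideal.span {(p : 𝓞 K)}) :=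
      Ideal.absNorm_dvd_absNorm_of_le (by
        rw [Ideal.span_singleton_le_iff_mem]
        exact hp𝔭)
    have h3 : Ideal.absNorm (Ideal.span {(p : 𝓞 K)}) = p ^ Module.finrank ℚ K := by
      rw [Ideal.absNorm_span_singleton]
      have h4 : (p : 𝓞 K) = algebraMap ℤ (𝓞 K) (p : ℤ) := by simp
      rw [h4, Algebra.norm_algebraMap, NumberField.RingOfIntegers.rank]
      simp [Int.natAbs_pow]
    rw [h3] at h2
    exact Nat.le_of_dvd (pow_pos hp.pos _) h2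
  have hpow : ∀ x : ResidueField A, x ^ (Ideal.absNorm v.asIdeal ^ f) = x :=
    DY.residue_pow w (fun a => AE.frob_pow hf w.asIdeal hnorm a)
  obtain ⟨hfinR, hcard⟩ := DY.card_of_pow (Nat.one_lt_pow (by omega) hN1) hpow
  refine ⟨A, fun x => hle _ (HeightOneSpectrum.valuation_le_one v x), ?_, hfinR,
    hcard.trans (Nat.pow_le_pow_left hNp f), ?_⟩
  · intro x hx h0
    have h1 : w.valuation N (algebraMap K N (algebraMap (𝓞 K) K x)) < 1 :=
      (DY.residue_eq_zero (w.valuation N) ⟨_, hle _ (HeightOneSpectrum.valuation_le_one v x)⟩).1 h0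
    rw [← HeightOneSpectrum.valuation_liesOver N v w] at h1
    have h2 : v.valuation K (algebraMap (𝓞 K) K x) = 1 := by
      refine le_antisymm (HeightOneSpectrum.valuation_le_one v x) ?_
      by_contra h3
      push Not at h3
      exact hx ((HeightOneSpectrum.valuation_lt_one_iff_mem v (K := K) x).1 h3)
    rw [h2, one_pow] at h1
    exact lt_irrefl _ h1
  · rw [← map_natCast (residue A), DY.residue_eq_zero]
    have h1 := HeightOneSpectrum.valuation_liesOver N v w (p : K)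
    rw [map_natCast (algebraMap K N)] at h1
    show w.valuation N (p : N) < 1
    rw [← h1]
    exact pow_lt_one₀ zero_le hpv he0

section

variable {K : Type} [Field K] [NumberField K] {R : Type} [CommRing R] {n : ℕ}
  {𝒜 : Family R n}

theorem torsion_galois (h𝒜 : 𝒜.IsGroupFamily) {g B : ℕ}
    (hgB : ∀ (F : Type) [Field F] [Finite F] (φ : R →+* F), φ 𝒜.disc ≠ 0 →
      Nat.card (𝒜.Pts φ) ≤ B * Nat.card F ^ g)
    (χ : R →+* 𝓞 K) {Q : ℕ} {p q : ℕ} (hp : p.Prime)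
    (hq : q.Prime) (hpq : p ≠ q) (hpQ : p ≤ Q) (hqQ : q ≤ Q) (𝔭 𝔮 : Ideal (𝓞 K))
    [𝔭.IsMaximal] [𝔮.IsMaximal] (hp𝔭 : (p : 𝓞 K) ∈ 𝔭) (hq𝔮 : (q : 𝓞 K) ∈ 𝔮)
    (h1 : χ 𝒜.disc ∉ 𝔭) (h2 : χ 𝒜.disc ∉ 𝔮) (N : Type) [Field N] [NumberField N] [Algebra K N]
    [IsGalois K N] {f : ℕ} (hf1 : 1 ≤ f) (hf : ∀ σ : N ≃ₐ[K] N, σ ^ f = 1)
    [AddCommGroup (𝒜.Pts (toField χ N))] (hG : 𝒜.IsGroupLaw (toField χ N)) :
    𝒜.torsionCount (toField χ N) ≤ ((B * (Q ^ (Module.finrank ℚ K * f)) ^ g) ^ 2 : ℕ) := by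
  obtain ⟨A, hA, hA1, hA2, hA3, hA4⟩ := place_galois (N := N) hf1 hf 𝔭 hp hp𝔭
  obtain ⟨E, hE, hE1, hE2, hE3, hE4⟩ := place_galois (N := N) hf1 hf 𝔮 hq hq𝔮
  have hφA : ∀ r, toField χ N r ∈ A := fun r => hA (χ r)
  have hφE : ∀ r, toField χ N r ∈ E := fun r => hE (χ r)
  obtain ⟨_, hKA⟩ := h𝒜.group (ResidueField A) (phiK A hφA) (hA1 _ h1)
  obtain ⟨_, hKE⟩ := h𝒜.group (ResidueField E) (phiK E hφE) (hE1 _ h2)
  have hX : ∀ r : ℕ, r.Prime → r ≤ Q →
      (r ^ Module.finrank ℚ K) ^ f ≤ Q ^ (Module.finrank ℚ K * f) := by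
    intro r hr hrQ
    rw [← pow_mul]
    exact Nat.pow_le_pow_left hrQ _
  refine torsion_encard hG A E hφA hφE hKA hKE hp hq hpq hA4 hE4 ?_ ?_
  · refine (hgB _ _ (hA1 _ h1)).trans (Nat.mul_le_mul_left _ (Nat.pow_le_pow_left ?_ _))
    exact hA3.trans (hX p hp hpQ)
  · refine (hgB _ _ (hE1 _ h2)).trans (Nat.mul_le_mul_left _ (Nat.pow_le_pow_left ?_ _))
    exact hE3.trans (hX q hq hqQ)

end

section

variable {R : Type} [CommRing R] {n : ℕ} {𝒜 : Family R n} {F F' : Type} [Field F] [Field F']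
  (σ : F →+* F') {φ : R →+* F} {φ' : R →+* F'}

theorem torsion_sub (hφ : φ' = σ.comp φ) [AddCommGroup (𝒜.Pts φ)] (hG : 𝒜.IsGroupLaw φ)
    [AddCommGroup (𝒜.Pts φ')] (hG' : 𝒜.IsGroupLaw φ') (S : Set (𝒜.Pts φ'))
    (hS : ∀ P ∈ S, IsOfFinAddOrder P) (x : 𝒜.Pts φ' → Fin (n + 1) → F')
    (hx : ∀ P ∈ S, Rep P (x P)) (hr : ∀ P ∈ S, ∀ i, ∃ y : F, σ y = x P i) :
    S.encard ≤ 𝒜.torsionCount φ := by
  subst hφ
  have hsub : S ⊆ bc σ '' {P : 𝒜.Pts φ | IsOfFinAddOrder P} := by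
    intro P hP
    choose y hy using hr P hP
    have hyx : (fun i => σ (y i)) = x P := funext hy
    have hy0 : y ≠ 0 := by
      rintro rfl
      apply (hx P hP).ne
      rw [← hyx]
      funext i
      simp
    obtain ⟨P', hP'⟩ : ∃ P' : 𝒜.Pts φ, Rep P' y := by
      refine exists_pt' hy0 fun g hg => ?_
      have h1 := (hx P hP).eqs g hg
      rw [← hyx, eval_comp] at h1
      exact (map_eq_zero σ).1 h1
    have hbc : bc σ P' = P := by
      have h1 := bc_spec σ hP'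
      rw [hyx] at h1
      exact h1.ext (hx P hP)
    refine ⟨P', ?_, hbc⟩
    obtain ⟨m, hm, hmP⟩ := isOfFinAddOrder_iff_nsmul_eq_zero.1 (hS P hP)
    refine isOfFinAddOrder_iff_nsmul_eq_zero.2 ⟨m, hm, ?_⟩
    apply bc_injective σ
    rw [bc_nsmul σ hG hG', hbc, hmP, bc_zero σ hG hG']
  refine (Set.encard_le_encard hsub).trans ?_
  exact Set.encard_image_le _ _

end

section

variable {K : Type} [Field K] [NumberField K] {R : Type} [CommRing R] {n : ℕ}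
  {𝒜 : Family R n}

/-- the torsion over `K[f]` -/
theorem torsion_exp (h𝒜 : 𝒜.IsGroupFamily) {g B : ℕ}
    (hgB : ∀ (F : Type) [Field F] [Finite F] (φ : R →+* F), φ 𝒜.disc ≠ 0 →
      Nat.card (𝒜.Pts φ) ≤ B * Nat.card F ^ g)
    (χ : R →+* 𝓞 K) (hχ : χ 𝒜.disc ≠ 0) {Q : ℕ} {p q : ℕ} (hp : p.Prime)
    (hq : q.Prime) (hpq : p ≠ q) (hpQ : p ≤ Q) (hqQ : q ≤ Q) (𝔭 𝔮 : Ideal (𝓞 K))
    [𝔭.IsMaximal] [𝔮.IsMaximal] (hp𝔭 : (p : 𝓞 K) ∈ 𝔭) (hq𝔮 : (q : 𝓞 K) ∈ 𝔮)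
    (h1 : χ 𝒜.disc ∉ 𝔭) (h2 : χ 𝒜.disc ∉ 𝔮) {f : ℕ} (hf1 : 1 ≤ f)
    [AddCommGroup (𝒜.Pts (toField χ (AE.expField K f)))]
    (hG : 𝒜.IsGroupLaw (toField χ (AE.expField K f))) :
    𝒜.torsionCount (toField χ (AE.expField K f)) ≤
      ((B * (Q ^ (Module.finrank ℚ K * f)) ^ g) ^ 2 : ℕ) := by
  classical
  set C : ℕ := (B * (Q ^ (Module.finrank ℚ K * f)) ^ g) ^ 2 with hC
  by_contra hlt
  push Not at hlt
  have hle : ((C + 1 : ℕ) : ℕ∞) ≤ {P : 𝒜.Pts (toField χ (AE.expField K f)) |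
      IsOfFinAddOrder P}.encard := by
    have h3 : ((C : ℕ) : ℕ∞) + 1 ≤ _ := Order.add_one_le_of_lt hlt
    exact_mod_cast h3
  obtain ⟨S, hS, hSc⟩ := Set.exists_subset_encard_eq hle
  have hSfin : S.Finite := Set.finite_of_encard_eq_coe hSc
  choose x hx using fun P : 𝒜.Pts (toField χ (AE.expField K f)) => exists_rep P
  have hfinI : Finite (S × Fin (n + 1)) := by
    have := hSfin.to_subtype
    infer_instance
  let e := Finite.equivFin (S × Fin (n + 1))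
  obtain ⟨N, hfd, hgal, hexp, hxN⟩ := AE.exists_galois (K := K) (f := f)
    (fun i => ((x (e.symm i).1 (e.symm i).2 : AE.expField K f) : AlgebraicClosure K))
    (fun i => (x (e.symm i).1 (e.symm i).2).2)
  have hfdQ : FiniteDimensional ℚ N := Module.Finite.trans K N
  have hnf : NumberField N := ⟨⟩
  have hNf : N ≤ AE.expField K f := AE.le_expField N hexp
  let σ : N →+* AE.expField K f := (IntermediateField.inclusion hNf).toRingHom
  have hχN : toField χ N 𝒜.disc ≠ 0 := by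
    intro h0
    apply hχ
    have h3 : algebraMap K N (algebraMap (𝓞 K) K (χ 𝒜.disc)) = 0 := h0
    rw [map_eq_zero] at h3
    exact (map_eq_zero_iff _ (FaithfulSMul.algebraMap_injective (𝓞 K) K)).1 h3
  obtain ⟨_, hGN⟩ := h𝒜.group N (toField χ N) hχN
  have hφ : toField χ (AE.expField K f) = σ.comp (toField χ N) := rfl
  have h3 := torsion_sub σ hφ hGN hG S (fun P hP => hS hP) x (fun P _ => hx P)
    (fun P hP i => by
      have h4 := hxN (e (⟨P, hP⟩, i))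
      rw [e.symm_apply_apply] at h4
      exact ⟨⟨_, h4⟩, rfl⟩)
  have h5 := torsion_galois h𝒜 hgB χ hp hq hpq hpQ hqQ 𝔭 𝔮 hp𝔭 hq𝔮 h1 h2 N hf1 hexp hGN
  rw [← hC] at h5
  rw [hSc] at h3
  have h6 : ((C + 1 : ℕ) : ℕ∞) ≤ ((C : ℕ) : ℕ∞) := h3.trans h5
  have h7 : C + 1 ≤ C := by exact_mod_cast h6
  omega

end

end Pool.Agent.H912.TX
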