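import Pool.Agent.H912.TX.U1

/-!
# Torsion over the infinite fields `K[f]`: few bad primes, and exponential moments (helper912)
-/

set_option autoImplicit false
set_option linter.unusedSectionVars false

open MvPolynomial IsLocalRing IsDedekindDomain Pool.Agent.Y729.AV Pool.Agent.Y729.AV.Family
open scoped NumberField

namespace Pool.Agent.H912.TX

/-- two good primes, if there are few bad ones -/
theorem two_good {K : Type} [Field K] [NumberField K] {𝔭 : ℕ → Ideal (𝓞 K)} (h𝔭 : Above 𝔭)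
    (hmax : ∀ p : ℕ, p.Prime → (𝔭 p).IsMaximal) (x : 𝓞 K) {s Q : ℕ}
    (hs : {v : HeightOneSpectrum (𝓞 K) | x ∈ v.asIdeal}.encard ≤ s)
    (hQ : s + 2 ≤ {p : ℕ | p.Prime ∧ p ≤ Q}.ncard) :
    ∃ p q : ℕ, p.Prime ∧ q.Prime ∧ p ≠ q ∧ p ≤ Q ∧ q ≤ Q ∧ x ∉ 𝔭 p ∧ x ∉ 𝔭 q := by
  classical
  have h0 : ¬ AllBut (fun p => x ∈ 𝔭 p) Q := by
    intro h
    obtain ⟨r, -, hr⟩ := h.exists
    have hPQ : {p : ℕ | p.Prime ∧ p ≤ Q} = ((PQ Q : Finset ℕ) : Set ℕ) := by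
      ext p
      rw [Finset.mem_coe, mem_PQ]
      exact and_comm
    rw [hPQ, Set.ncard_coe_finset] at hQ
    have hcard : s + 1 ≤ ((PQ Q).erase r).card := by
      have := Finset.pred_card_le_card_erase (s := PQ Q) (a := r)
      omega
    have hprime : ∀ p ∈ (PQ Q).erase r, p.Prime := fun p hp =>
      (mem_PQ.1 (Finset.mem_of_mem_erase hp)).2
    have hinj : Set.InjOn 𝔭 (((PQ Q).erase r : Finset ℕ) : Set ℕ) := by
      intro p hp q hq hpq
      have hp' := hprime p hp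
      have hq' := hprime q hq
      by_contra hne
      have h1 := h𝔭.mem p hp'
      have h2 := h𝔭.mem q hq'
      rw [← hpq] at h2
      have hc : IsCoprime (p : ℤ) (q : ℤ) := Nat.isCoprime_iff_coprime.2
        ((Nat.coprime_primes hp' hq').2 hne)
      obtain ⟨a, b, hab⟩ := hc
      apply h𝔭.ne_top p hp'
      rw [Ideal.eq_top_iff_one]
      have h3 : ((a : ℤ) : 𝓞 K) * (p : 𝓞 K) + ((b : ℤ) : 𝓞 K) * (q : 𝓞 K) = 1 := by
        exact_mod_cast congrArg (Int.cast : ℤ → 𝓞 K) hab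
      rw [← h3]
      exact Ideal.add_mem _ (Ideal.mul_mem_left _ _ h1) (Ideal.mul_mem_left _ _ h2)
    have hsub : 𝔭 '' (((PQ Q).erase r : Finset ℕ) : Set ℕ) ⊆
        HeightOneSpectrum.asIdeal '' {v : HeightOneSpectrum (𝓞 K) | x ∈ v.asIdeal} := by
      rintro _ ⟨p, hp, rfl⟩
      have hp' := hprime p hp
      have hm := hmax p hp'
      refine ⟨⟨𝔭 p, hm.isPrime, ?_⟩, hr p hp, rfl⟩
      intro hb
      have h1 := h𝔭.mem p hp'
      rw [hb, Ideal.mem_bot] at h1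
      exact hp'.ne_zero (by exact_mod_cast h1)
    have h1 := (Set.encard_le_encard hsub).trans ((Set.encard_image_le _ _).trans hs)
    rw [hinj.encard_image, Set.encard_coe_eq_coe_finsetCard] at h1
    have h2 : ((PQ Q).erase r).card ≤ s := by exact_mod_cast h1
    omega
  unfold AllBut at h0
  push Not at h0
  obtain ⟨p, q, hp, hq, hpq, hpQ, hqQ, h1, h2⟩ := h0
  exact ⟨p, q, hp, hq, hpq, hpQ, hqQ, h1, h2⟩

/-- at most `B |F| ^ g` points over the finite fields `F` -/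
def PointsLE {R : Type} [CommRing R] {n : ℕ} (𝒜 : Family R n) (g B : ℕ) : Prop :=
  ∀ (F : Type) [Field F] [Finite F] (φ : R →+* F), φ 𝒜.disc ≠ 0 →
    Nat.card (𝒜.Pts φ) ≤ B * Nat.card F ^ g

theorem few_bad {K : Type} [Field K] [NumberField K] {R : Type} [CommRing R] {n : ℕ}
    {𝒜 : Family R n} (h𝒜 : 𝒜.IsGroupFamily) {g B : ℕ} (hgB : PointsLE 𝒜 g B)
    (χ : R →+* 𝓞 K) {s Q : ℕ}
    (hs : {v : HeightOneSpectrum (𝓞 K) | χ 𝒜.disc ∈ v.asIdeal}.encard ≤ s)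
    (hQ : s + 2 ≤ {p : ℕ | p.Prime ∧ p ≤ Q}.ncard) {f : ℕ} (hf : 1 ≤ f)
    [AddCommGroup (𝒜.Pts (toField χ (AE.expField K f)))]
    (hG : 𝒜.IsGroupLaw (toField χ (AE.expField K f))) :
    𝒜.torsionCount (toField χ (AE.expField K f)) ≤
      ((B * (Q ^ (Module.finrank ℚ K * f)) ^ g) ^ 2 : ℕ) := by
  obtain ⟨𝔭, h𝔭, hmax⟩ := exists_above K
  obtain ⟨p, q, hp, hq, hpq, hpQ, hqQ, h1, h2⟩ := two_good h𝔭 hmax (χ 𝒜.disc) hs hQ
  have := hmax p hp
  have := hmax q hq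
  have hχ : χ 𝒜.disc ≠ 0 := by
    intro h0
    rw [h0] at h1
    exact h1 (zero_mem _)
  exact torsion_exp h𝒜 hgB χ hχ hp hq hpq hpQ hqQ (𝔭 p) (𝔭 q) (h𝔭.mem p hp) (h𝔭.mem q hq)
    h1 h2 hf hG

open Classical in
/-- exponential moments, for all `f` at once -/
theorem moments_exp {k : Type} [Field k] [NumberField k] {J : Type} [Fintype J]
    (ω : Module.Basis J ℤ (𝓞 k)) {M n : ℕ} (𝒜 : Family (MvPolynomial (Fin M) (𝓞 k)) n)
    (h𝒜 : 𝒜.IsGroupFamily) :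
    ∃ (ℓ : (Fin M → 𝓞 k) → ℕ) (c C : ℝ), 0 < c ∧
      (∀ H : ℕ, ∑ v ∈ (box ω M H).filter (fun v => eval v 𝒜.disc ≠ 0), Real.exp (c * ℓ v) ≤
        C * (box ω M H).card) ∧
      ∀ g B : ℕ, PointsLE 𝒜 g B → ∀ v : Fin M → 𝓞 k, eval v 𝒜.disc ≠ 0 → ∀ f : ℕ, 1 ≤ f →
        ∀ _ : AddCommGroup (𝒜.Pts (toField (eval v) (AE.expField k f))),
          𝒜.IsGroupLaw (toField (eval v) (AE.expField k f)) →
          𝒜.torsionCount (toField (eval v) (AE.expField k f)) ≤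
            ((B * (ℓ v ^ (Module.finrank ℚ k * f)) ^ g) ^ 2 : ℕ) := by
  obtain ⟨𝔭, h𝔭, hmax⟩ := exists_above k
  obtain ⟨P, hP, hPev⟩ := exists_sub ω 𝒜.disc h𝒜.disc_ne
  obtain ⟨c, C, hc, hC, hmom⟩ := moment h𝔭 P hP
  refine ⟨fun v => lst 𝔭 (eval v 𝒜.disc), c, C, hc, ?_, ?_⟩
  · intro H
    have hsum : ∑ v ∈ (box ω M H).filter (fun v => eval v 𝒜.disc ≠ 0),
        Real.exp (c * lst 𝔭 (eval v 𝒜.disc)) =
        ∑ w ∈ (bx (Fin M × J) H).filter (fun w => evi P w ≠ 0),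
          Real.exp (c * lst 𝔭 (evi P w)) := by
      rw [box_eq, Finset.filter_image, Finset.sum_image (fun a _ b _ h => vecw_injective ω h)]
      refine Finset.sum_congr ?_ fun w _ => by rw [hPev]
      ext w
      simp only [Finset.mem_filter, hPev]
    rw [hsum, card_box]
    refine (hmom H).trans (le_of_eq ?_)
    rw [Fintype.card_prod, Fintype.card_fin]
    push_cast
    rfl
  · intro g B hgB v hv f hf G hG
    have h1 := lst_spec h𝔭 (eval v 𝒜.disc) hv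
    unfold AllBut at h1
    push Not at h1
    obtain ⟨p, q, hp, hq, hpq, hpQ, hqQ, hpP, hqP⟩ := h1
    have := hmax p hp
    have := hmax q hq
    exact torsion_exp h𝒜 hgB (eval v) hv hp hq hpq hpQ hqQ (𝔭 p) (𝔭 q) (h𝔭.mem p hp)
      (h𝔭.mem q hq) hpP hqP hf hG

end Pool.Agent.H912.TX
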